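import Pool.Agent.W425.IM.Stm

/-!
# Project IM: assembly of the root side
-/

set_option autoImplicit false

namespace Pool.Agent.W425.IM

open MvPolynomial
open Pool.Agent.W428.MOT
open Pool.Agent.W426.SM (AffInd gord ford IsRay face)

theorem sum_gen {r k n : ℕ} (π : Fin r → Fin k) (w : Fin r → Fin n → ℕ) (c : Fin r → ℂ) :
    (∑ i, X (Fin.castAdd n i) * rename (Fin.natAdd k) (gen π w c i) :
      MvPolynomial (Fin (k + n)) ℂ) = sp 0 (vv π w) c 1 := by
  classical
  unfold sp gen
  simp only [Pi.zero_apply, pow_zero, Finset.prod_const_one, one_mul, pow_one]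
  have h1 : ∀ i : Fin k, (X (Fin.castAdd n i) * rename (Fin.natAdd k)
        (∑ j with π j = i, C (c j) * ∏ l, X l ^ w j l : MvPolynomial (Fin n) ℂ)) =
      ∑ j with π j = i, (C (c j) * ∏ m, X m ^ vv π w j m : MvPolynomial (Fin (k + n)) ℂ) := by
    intro i
    rw [map_sum, Finset.mul_sum]
    refine Finset.sum_congr rfl fun j hj => ?_
    have hj' : π j = i := (Finset.mem_filter.1 hj).2
    rw [Fin.prod_univ_add, map_mul, rename_C, map_prod]
    have h2 : (∏ i', X (Fin.castAdd n i') ^ vv π w j (Fin.castAdd n i') :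
        MvPolynomial (Fin (k + n)) ℂ) = X (Fin.castAdd n i) := by
      rw [Finset.prod_eq_single i]
      · simp [vv, hj']
      · intro i' _ hi'
        simp [vv, hj', hi']
      · intro h; exact absurd (Finset.mem_univ _) h
    rw [h2]
    have h3 : ∀ l : Fin n, rename (Fin.natAdd k)
        (X l ^ w j l : MvPolynomial (Fin n) ℂ) =
        X (Fin.natAdd k l) ^ vv π w j (Fin.natAdd k l) := by
      intro l
      rw [map_pow, rename_X]
      simp [vv]
    rw [Finset.prod_congr rfl fun l _ => h3 l]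
    ring
  rw [Finset.sum_congr rfl fun i _ => h1 i]
  exact Finset.sum_fiberwise _ _ _

theorem rootI (h1 : S_IL1) (h2 : S_IL2) (h3 : S_RALI) (h4 : S_RCoreI) (h5 : S_ChamberI)
    (h6 : S_RLLI) : S_RootI := by
  classical
  intro n k r π w c hm hc hr hw b hb a ha
  obtain ⟨hray, hford, u0, hu1, hu2, hu3, hu4⟩ := ha
  have e1 := h2 _ _ (h1 _ _ hb)
  rw [sum_gen] at e1
  obtain ⟨L', L, ac, γ, q, ω, α, β, hI, hγ⟩ := h3 π w c hm hc hr _ e1
  obtain ⟨u, hu, hsub, hrel⟩ := h5 (vv π w) a u0 hr hray hu2 hu3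
  obtain ⟨t₀, Λ, p, g1, g2, g3, g4, g5, g6⟩ := h6 (vv π w) a (amin (vv π w) u) (by
    intro i hi j hj hji
    revert hji hi
    refine Fin.addCases (fun i' => ?_) (fun l => ?_) i
    · intro hi hji
      have hπ : π j = i' := by
        by_contra hne
        simp [vv, Pi.single_apply] at hji
        exact hne hji.symm
      obtain ⟨j1, hj1, j2, hj2, hne, hp1, hp2⟩ := hu4 i' (fun h => hi (hu2 _ h))
      by_cases h7 : j1 = j
      · refine ⟨j2, hsub hj2, fun h8 => hne (h7.trans h8.symm), ?_⟩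
        simp [vv, hp2]
      · refine ⟨j1, hsub hj1, h7, ?_⟩
        simp [vv, hp1]
    · intro _ hji
      exfalso
      simp only [vv, Fin.append_right] at hji
      exact hw j l hji) hrel hford
  refine h4 0 (vv π w) 1 a u (Finset.univ.map (Fin.natAddEmb k)) one_pos ?_ hrel hford
    t₀ Λ p g1 g2 g3 g4 g5 g6 _ ac γ q ω α β hI ?_
  · intro i hi
    obtain ⟨l, -, rfl⟩ := Finset.mem_map.1 hi
    exact hu _ (hu1 l)
  · intro l
    obtain ⟨i, hi⟩ := hγ l
    refine ⟨Fin.natAdd k i, Finset.mem_map.2 ⟨i, Finset.mem_univ _, rfl⟩, ?_⟩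
    simpa [vv] using hi

end Pool.Agent.W425.IM
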