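import Pool.Agent.W749.NM.Stm
import Pool.Agent.W574.HS.Conv

/-!
# Project IM: statements of the parts (nothing is proved here)

The motivic zeta function at the origin of the ideal `(f_0, …, f_(k-1))`,
`f_i = ∑_{π j = i} c_j x ^ (w j)`, the vectors `(e_(π j), w j)` affinely independent, and the local
Bernstein-Sato polynomial of the ideal at the origin.
-/

set_option autoImplicit false

namespace Pool.Agent.W425.IM

open MvPolynomial
open Pool.Agent.W428.MOT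
open Pool.Agent.W426.SM (AffInd gord ford IsRay face ff aff)
open Pool.Agent.H628R4.TP (weylS)
open Pool.Agent.W749.NM (Ident RelRay BF S_RCW)
open Pool.Agent.W574.SM (weyl applyAt)

/-! ### The ideal -/

/-- The generators `f_i = ∑_{π j = i} c_j x ^ (w j)` of the ideal, `i < k`. -/
noncomputable def gen {F : Type} [Field F] {r k n : ℕ} (π : Fin r → Fin k)
    (w : Fin r → Fin n → ℕ) (c : Fin r → F) (i : Fin k) : MvPolynomial (Fin n) F :=
  ∑ j with π j = i, C (c j) * ∏ l, X l ^ w j l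

/-- The exponent `(e_(π j), w j)` of the monomial `y_(π j) x ^ (w j)` of `∑ y_i f_i`. -/
def vv {r k n : ℕ} (π : Fin r → Fin k) (w : Fin r → Fin n → ℕ) (j : Fin r) : Fin (k + n) → ℕ :=
  Fin.append (Pi.single (π j) 1) (w j)

/-! ### The local functional equation of an ideal -/

/-- `b` satisfies a functional equation
`b(∑ s_j) ∏ f_j ^ s_j = ∑_c P_c ∏_{c_j < 0} binom(s_j, -c_j) ∏ f_j ^ (s_j + c_j)`, finitely many
`c ∈ ℤ ^ k` with `∑ c_j = 1`, the `P_c` being polynomials in `s_1, …, s_k` whose coefficients are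
differential operators with (formal, in particular convergent) power series at the origin as
coefficients: the right side is a finite sum of terms `s ^ μ p Q (…)`, `p` a power series and `Q`
in the Weyl algebra. The equation is stated for all `s ∈ ℕ ^ k`; this is equivalent to the formal
equation. (If `s_j + c_j < 0` for some `j` then the binomial coefficient is zero.) -/
def IsLocalFE {n k : ℕ} (f : Fin k → MvPolynomial (Fin n) ℂ) (b : Polynomial ℂ) : Prop :=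
  ∃ (L : ℕ) (c : Fin L → Fin k → ℤ) (μ : Fin L → Fin k → ℕ) (p : Fin L → MvPowerSeries (Fin n) ℂ)
    (Q : Fin L → weyl (Fin n)),
    (∀ l, ∑ j, c l j = 1) ∧
    ∀ s : Fin k → ℕ,
      MvPowerSeries.C (b.eval ((∑ j, s j : ℕ) : ℂ)) *
          ((∏ j, f j ^ s j : MvPolynomial (Fin n) ℂ) : MvPowerSeries (Fin n) ℂ) =
        ∑ l, MvPowerSeries.C (∏ j, (s j : ℂ) ^ μ l j) * (p l *
          (((Q l : Module.End ℂ (MvPolynomial (Fin n) ℂ))
            (C ((∏ j, (if c l j < 0 then (s j).choose (-c l j).toNat else 1) : ℕ) : ℂ) *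
              ∏ j, f j ^ ((s j : ℤ) + c l j).toNat) : MvPolynomial (Fin n) ℂ) :
            MvPowerSeries (Fin n) ℂ))

/-- The local functional equation with a polynomial unit at the origin. -/
def IsUnitFE {n k : ℕ} (f : Fin k → MvPolynomial (Fin n) ℂ) (b : Polynomial ℂ) : Prop :=
  ∃ (a : MvPolynomial (Fin n) ℂ) (S : Finset (Fin k → ℤ))
    (P : (Fin k → ℤ) → ((Fin k →₀ ℕ) →₀ weyl (Fin n))), constantCoeff a = 1 ∧
    (∀ c ∈ S, ∑ j, c j = 1) ∧
    ∀ s : Fin k → ℕ,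
      C (b.eval ((∑ j, s j : ℕ) : ℂ)) * a * ∏ j, f j ^ s j =
        ∑ c ∈ S, applyAt (P c) s
          (C ((∏ j, (if c j < 0 then (s j).choose (-c j).toNat else 1) : ℕ) : ℂ) *
            ∏ j, f j ^ ((s j : ℤ) + c j).toNat)

/-- (IL1) from formal power series to polynomials with a unit (as `Pool.Agent.W368.SL.taskL1`). -/
def S_IL1 : Prop := ∀ {n k : ℕ} (f : Fin k → MvPolynomial (Fin n) ℂ) (b : Polynomial ℂ),
  IsLocalFE f b → IsUnitFE f b

/-- `B(s) a(x) g ^ s = P(s) g ^ (s + 1)`, the unit `a` depending only on the last `n` variables. -/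
def UnitG {n k : ℕ} (g : MvPolynomial (Fin (k + n)) ℂ) (B : Polynomial ℂ) : Prop :=
  ∃ (a : MvPolynomial (Fin n) ℂ) (P : ℕ →₀ weylS (Fin (k + n))), constantCoeff a = 1 ∧
    ∀ s : ℕ, C (B.eval (s : ℂ)) * rename (Fin.natAdd k) a * g ^ s =
      P.sum fun m Q => ((s : ℂ) ^ m) •
        (Q : Module.End ℂ (MvPolynomial (Fin (k + n)) ℂ)) (g ^ (s + 1))

/-- (IL2) Mustata's theorem with a unit (as `Pool.Agent.W366.SI.taskI1`). -/
def S_IL2 : Prop := ∀ {n k : ℕ} (f : Fin k → MvPolynomial (Fin n) ℂ) (b : Polynomial ℂ),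
  IsUnitFE f b →
    UnitG (∑ i, X (Fin.castAdd n i) * rename (Fin.natAdd k) (f i)) ((Polynomial.X + 1) * b)

/-- (RALI) the functional equation in terms of the exponents (as `Pool.Agent.W125.NMRAL`). -/
def S_RALI : Prop :=
  ∀ {n k r : ℕ} (π : Fin r → Fin k) (w : Fin r → Fin n → ℕ) (c : Fin r → ℂ),
    AffInd (vv π w) → (∀ j, c j ≠ 0) → 0 < r → ∀ B : Polynomial ℂ,
    UnitG (sp 0 (vv π w) c 1) B →
    ∃ (L' L : ℕ) (ac : Fin L' → ℂ) (γ : Fin L' → Fin r → ℤ) (q : Fin L → Polynomial ℂ)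
      (ω : Fin L → Fin r → ℤ) (α β : Fin L → Fin (k + n) → ℕ),
      Ident 0 (vv π w) 1 B ac γ q ω α β ∧ ∀ l, ∃ i : Fin n, 0 < ∑ j, γ l j * (w j i : ℤ)

/-- (RCOREI) the contour argument (as `Pool.Agent.W349.NMRCore`, where `X` is everything). -/
def S_RCoreI : Prop :=
  ∀ {n k : ℕ} (A : Fin n → ℕ) (m : Fin k → Fin n → ℕ) (e : ℕ) (a u : Fin n → ℕ)
    (X : Finset (Fin n)), 0 < e →
    (∀ i ∈ X, 0 < u i) → RelRay m a (amin m u) → 0 < ford A m e a →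
    ∀ (t₀ : Fin k → ℝ) (Λ : Fin k → BF a (amin m u) → ℝ) (p : BF a (amin m u) → ℝ),
      (∀ b, 0 < p b) →
      (∀ j, j ∉ amin m u → t₀ j = 0) →
      (∀ j (h : j ∉ amin m u) b, Λ j b = if b = Sum.inr ⟨j, h⟩ then -1 else 0) →
      (∀ i, a i ≠ 0 → (∑ j, t₀ j) / e * A i + ∑ j, t₀ j * m j i = -1) →
      (∀ i (h : a i ≠ 0) b, (∑ j, Λ j b) / e * A i + ∑ j, Λ j b * m j i =
        if b = Sum.inl ⟨i, h⟩ then 1 else 0) →
      (∀ j, j ∈ amin m u → (∃ r : ℕ, t₀ j = -((r : ℝ) + 1)) →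
        (∑ b, Λ j b * p b < 0) ∧
        ∀ ω : Fin k → ℝ,
          ∑ i : {i : Fin n // a i ≠ 0}, Λ j (Sum.inl i) *
              ((∑ j', ω j') / e * A i + ∑ j', ω j' * m j' i) +
            ∑ l : {j : Fin k // j ∉ amin m u}, Λ j (Sum.inr l) * (- ω l) = ω j) →
    ∀ (b : Polynomial ℂ) {L' L : ℕ} (ac : Fin L' → ℂ) (γ : Fin L' → Fin k → ℤ)
      (q : Fin L → Polynomial ℂ) (ω : Fin L → Fin k → ℤ) (α β : Fin L → Fin n → ℕ),
      Ident A m e b ac γ q ω α β → (∀ l, ∃ i ∈ X, 0 < ∑ j, γ l j * (m j i : ℤ)) →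
      b.eval (-(((∑ i, a i : ℕ) : ℂ) / ford A m e a)) = 0

/-- (CHAMBERI) the chamber at a ray of the closure of the cone of `u0` (as
`Pool.Agent.W347.NMChamber`, where all the `u0 i` are `1`). -/
def S_ChamberI : Prop :=
  ∀ {n k : ℕ} (m : Fin k → Fin n → ℕ) (a u0 : Fin n → ℕ), 0 < k → IsRay m a →
    (∀ i, u0 i = 0 → a i = 0) → (∀ j ∈ amin m u0, face m a j) →
    ∃ u : Fin n → ℕ, (∀ i, u0 i ≠ 0 → 0 < u i) ∧ amin m u0 ⊆ amin m u ∧ RelRay m a (amin m u)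

/-- (RLLI) the linear algebra of a relative ray (as `Pool.Agent.W762.NMRLL`), without apex of
height one. -/
def S_RLLI : Prop :=
  ∀ {n k : ℕ} (m : Fin k → Fin n → ℕ) (a : Fin n → ℕ)
    (F : Finset (Fin k)),
    (∀ i, a i ≠ 0 → ∀ j ∈ F, m j i = 1 → ∃ j' ∈ F, j' ≠ j ∧ m j' i ≠ 0) →
    RelRay m a F → 0 < ford 0 m 1 a →
    ∃ (t₀ : Fin k → ℝ) (Λ : Fin k → BF a F → ℝ) (p : BF a F → ℝ),
      (∀ b, 0 < p b) ∧
      (∀ j, j ∉ F → t₀ j = 0) ∧
      (∀ j (h : j ∉ F) b, Λ j b = if b = Sum.inr ⟨j, h⟩ then -1 else 0) ∧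
      (∀ i, a i ≠ 0 → (∑ j, t₀ j) / (1 : ℕ) * ((0 : Fin n → ℕ) i : ℕ) + ∑ j, t₀ j * m j i = -1) ∧
      (∀ i (h : a i ≠ 0) b, (∑ j, Λ j b) / (1 : ℕ) * ((0 : Fin n → ℕ) i : ℕ) +
        ∑ j, Λ j b * m j i = if b = Sum.inl ⟨i, h⟩ then 1 else 0) ∧
      (∀ j, j ∈ F → (∃ r : ℕ, t₀ j = -((r : ℝ) + 1)) →
        (∑ b, Λ j b * p b < 0) ∧
        ∀ ω : Fin k → ℝ,
          ∑ i : {i : Fin n // a i ≠ 0}, Λ j (Sum.inl i) *
              ((∑ j', ω j') / (1 : ℕ) * ((0 : Fin n → ℕ) i : ℕ) + ∑ j', ω j' * m j' i) +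
            ∑ l : {j : Fin k // j ∉ F}, Λ j (Sum.inr l) * (- ω l) = ω j)

/-- The rays which give poles: those of the closure of the cone of a vector `u0` whose last `n`
coordinates are positive and such that for `u0 i ≠ 0`, `i < k`, at least two of the monomials of
`f_i` have minimal weight. -/
def GoodRay {n k r : ℕ} (π : Fin r → Fin k) (w : Fin r → Fin n → ℕ) (a : Fin (k + n) → ℕ) :
    Prop :=
  IsRay (vv π w) a ∧ 0 < ford 0 (vv π w) 1 a ∧ ∃ u0 : Fin (k + n) → ℕ,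
    (∀ l : Fin n, u0 (Fin.natAdd k l) ≠ 0) ∧ (∀ i, u0 i = 0 → a i = 0) ∧
    (∀ j ∈ amin (vv π w) u0, face (vv π w) a j) ∧
    ∀ i : Fin k, u0 (Fin.castAdd n i) ≠ 0 →
      ∃ j ∈ amin (vv π w) u0, ∃ j' ∈ amin (vv π w) u0, j ≠ j' ∧ π j = i ∧ π j' = i

/-- (ROOTI) the roots of the local Bernstein-Sato polynomial of the ideal. -/
def S_RootI : Prop :=
  ∀ {n k r : ℕ} (π : Fin r → Fin k) (w : Fin r → Fin n → ℕ) (c : Fin r → ℂ),
    AffInd (vv π w) → (∀ j, c j ≠ 0) → 0 < r → (∀ j i, w j i ≠ 1) →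
    ∀ b : Polynomial ℂ, IsLocalFE (gen π w c) b → ∀ a, GoodRay π w a →
      ((Polynomial.X + 1) * b).eval (-(((∑ i, a i : ℕ) : ℂ) / ford 0 (vv π w) 1 a)) = 0

/-! ### Jets -/

/-- The `N`-jets `ψ` of `X = 𝔸 ^ n` with `ψ(0) = 0` and order `N` along the ideal of the `f_i`. -/
def JetI {K : Type} [Field K] {n k : ℕ} (f : Fin k → MvPolynomial (Fin n) K) (N : ℕ) :
    Set (Pt K (Fin n × Fin (N + 1))) :=
  {z | (∀ l, z (l, 0) = 0) ∧
    (∀ i, ∀ j < N, PowerSeries.coeff j (aeval (arc z) (f i)) = 0) ∧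
    ∃ i, PowerSeries.coeff N (aeval (arc z) (f i)) ≠ 0}

/-- The motivic zeta function of the ideal at the origin,
`Z(T) = 𝕃 ^ (-n) ∑_{N ≥ 1} [𝒳_N] 𝕃 ^ (- n N) T ^ N`. -/
noncomputable def zetaI {K : Type} [Field K] {n k : ℕ} (f : Fin k → MvPolynomial (Fin n) K) :
    PowerSeries (MK K) :=
  PowerSeries.C (((Lu K) ^ (-(n : ℤ)) : (MK K)ˣ) : MK K) * PowerSeries.mk fun N =>
    if N = 0 then 0 else
    algebraMap (K0 K) (MK K) (cls (Fin n × Fin (N + 1)) (JetI f N)) *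
      (((Lu K) ^ (-((n * N : ℕ) : ℤ)) : (MK K)ˣ) : MK K)

section Strata

variable {K : Type} [Field K] {n k r : ℕ}

/-- The jets of level `2 N + 1` with origin `0` and orders `u` (`u l = N + 1` means order at least
`N + 1`), such that all the `f_i` have order at least `T`. -/
def stratI (f : Fin k → MvPolynomial (Fin n) K) (N T : ℕ) (u : Fin n → ℕ) :
    Set (Pt K (Fin n × Fin (2 * N + 1 + 1))) :=
  {z | (∀ l, z (l, 0) = 0) ∧
    (∀ l, (∀ j < u l, PowerSeries.coeff j (arc z l) = 0) ∧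
      (u l ≤ N → PowerSeries.coeff (u l) (arc z l) ≠ 0)) ∧
    ∀ i, ∀ j < T, PowerSeries.coeff j (aeval (arc z) (f i)) = 0}

/-- the weight of `f_i` -/
noncomputable def mI (π : Fin r → Fin k) (w : Fin r → Fin n → ℕ) (u : Fin n → ℕ) (i : Fin k) :
    ℕ :=
  ⨅ j : {j // π j = i}, ∑ l, u l * w j l

/-- the coefficients of `f_i`, the others being replaced by zero -/
def msk {F : Type} [Field F] (π : Fin r → Fin k) (c : Fin r → F) (i : Fin k) (j : Fin r) : F :=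
  if π j = i then c j else 0

/-- `t ^ (-mI) f_i(t ^ u y)` -/
noncomputable def gI (π : Fin r → Fin k) (w : Fin r → Fin n → ℕ) (c : Fin r → K) (u : Fin n → ℕ)
    (i : Fin k) (y : Fin n → PowerSeries (AlgebraicClosure K)) :
    PowerSeries (AlgebraicClosure K) :=
  gser w (msk π (cb c) i) (fun j => ∑ l, u l * w j l - mI π w u i) y

/-- The base: the points of the torus at which the initial forms of the `f_i`, `i ∈ T`, vanish
(the coordinates in `Fr` are normalised to `1`). -/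
def BI (π : Fin r → Fin k) (w : Fin r → Fin n → ℕ) (c : Fin r → K) (Fr : Finset (Fin n))
    (T : Finset (Fin k)) (τ : Finset (Fin r)) : Set (Pt K (Fin n)) :=
  {z | (∀ l, z l ≠ 0) ∧ (∀ l ∈ Fr, z l = 1) ∧ ∀ i ∈ T, gbar w (msk π (cb c) i) τ z = 0}

end Strata

/-- (JETI) partition of the jets by the orders of the coordinates (as `Pool.Agent.W571.NMJet`). -/
def S_JetI : Prop :=
  ∀ {K : Type} [Field K] {R : Type} [CommRing R] (M : Meas K R) {n k : ℕ}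
    (f : Fin k → MvPolynomial (Fin n) K), ∀ N : ℕ, 1 ≤ N →
    M.χ (Fin n × Fin (N + 1)) (JetI f N) * M.L ^ (n * (N + 1)) =
      ∑ u ∈ (Fintype.piFinset fun _ : Fin n => Finset.range (N + 2)).filter (fun u => ∀ l, u l ≠ 0),
        (M.χ (Fin n × Fin (2 * N + 1 + 1)) (stratI f N N u) -
          M.χ (Fin n × Fin (2 * N + 1 + 1)) (stratI f N (N + 1) u))

/-- (SHIFTI) `z_l = t ^ (u l) y_l` (as `Pool.Agent.W571.NMJet`). -/
def S_ShiftI : Prop :=
  ∀ {K : Type} [Field K] {R : Type} [CommRing R] (M : Meas K R) {n k : ℕ}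
    (f : Fin k → MvPolynomial (Fin n) K), ∀ N : ℕ, 1 ≤ N → ∀ T ≤ N + 1, ∀ u : Fin n → ℕ,
    (∀ l, u l ≠ 0) → (∀ l, u l ≤ N + 1) →
    M.χ _ (stratI f N T u) =
      M.χ _ (Y0 (0 : Fin n → K) N u ∩ {y | ∀ i, ∀ j < T, PowerSeries.coeff j
          (aeval (fun l => PowerSeries.X ^ u l * arc y l) (f i)) = 0})

/-- (CONDI) `f_i(t ^ u y) = t ^ (mI) gI` (as `Pool.Agent.W930.NMCondN.aeval_sp`). -/
def S_CondI : Prop :=
  ∀ {K : Type} [Field K] {n k r : ℕ} (π : Fin r → Fin k)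
    (w : Fin r → Fin n → ℕ) (c : Fin r → K), Function.Surjective π → ∀ (u : Fin n → ℕ) (i : Fin k)
    (y : Fin n → PowerSeries (AlgebraicClosure K)) (T : ℕ),
      (∀ j < T, PowerSeries.coeff j
          (aeval (fun l => PowerSeries.X ^ u l * y l) (gen π w c i)) = 0) ↔
        ∀ j < T - mI π w u i, PowerSeries.coeff j (gI π w c u i y) = 0

/-- (LIN) independent linear conditions. -/
def S_Lin : Prop :=
  ∀ {K : Type} [Field K] {R : Type} [CommRing R] (M : Meas K R) {ι : Type} [Fintype ι]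
    [DecidableEq ι] (S : Set (Pt K ι)) (D : Finset ι) (p : ℕ)
    (F : Fin p → Pt K ι → AlgebraicClosure K) (A : Fin p → ι → Pt K ι → AlgebraicClosure K),
    Constr S → (∀ i, IsPF (F i)) → (∀ i d, IsPF (A i d)) →
    (∀ z z' : Pt K ι, (∀ i, i ∉ D → z' i = z i) →
      (z ∈ S → z' ∈ S) ∧ (∀ i d, A i d z' = A i d z) ∧
      ∀ i, F i z' = F i z + ∑ d ∈ D, A i d z * (z' d - z d)) →
    (∀ z ∈ S, ∀ x : Fin p → AlgebraicClosure K, (∀ d ∈ D, ∑ i, x i * A i d z = 0) → x = 0) →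
    M.χ ι (S ∩ {z | ∀ i, F i z = 0}) * M.L ^ p = M.χ ι S

/-- (NONI) nondegeneracy. -/
def S_NonI : Prop :=
  ∀ {F : Type} [Field F] [CharZero F] {n k r : ℕ} (π : Fin r → Fin k) (w : Fin r → Fin n → ℕ)
    (c : Fin r → F) (T : Finset (Fin k)) (τ : Fin k → Finset (Fin r)) (z : Fin n → F),
    AffInd (vv π w) → (∀ j, c j ≠ 0) → (∀ i ∈ T, ∃ j ∈ τ i, π j = i) →
    (∀ i ∈ T, ∀ j ∈ τ i, π j = i → ∀ l, w j l ≠ 0 → z l ≠ 0) →
    (∀ i ∈ T, gbar w (msk π c i) (τ i) z = 0) →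
    ∀ x : Fin k → F, (∀ l, ∑ i ∈ T, x i * dgbar w (msk π c i) (τ i) l z = 0) → ∀ i ∈ T, x i = 0

/-- (STI) the class of a stratum (as `Pool.Agent.W749.NM.StCN`). -/
def S_StI : Prop :=
  ∀ {K : Type} [Field K] [CharZero K] {R : Type} [CommRing R] (M : Meas K R) {n k r : ℕ}
    (π : Fin r → Fin k) (w : Fin r → Fin n → ℕ) (c : Fin r → K), AffInd (vv π w) →
    (∀ j, c j ≠ 0) → Function.Surjective π → ∀ N : ℕ, 1 ≤ N → ∀ u : Fin n → ℕ, (∀ l, u l ≠ 0) →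
    (∀ l, u l ≤ N + 1) → ∀ (lam : Fin k → ℕ), (∀ i, lam i ≤ N + 1) →
    ∀ (Fr : Finset (Fin n)) (τ : Finset (Fin r)), (∀ l, l ∉ Fr → u l ≤ N) →
    (∀ i, 0 < lam i → ∀ j, π j = i →
      (j ∈ τ ↔ ∑ l, u l * w j l = mI π w u i) ∧ (j ∈ τ → ∀ l ∈ Fr, w j l = 0)) →
    M.χ _ (Y0 (0 : Fin n → K) N u ∩ {y | ∀ i, ∀ j < lam i,
        PowerSeries.coeff j (gI π w c u i (arc y)) = 0}) * M.L ^ (∑ i, (lam i - 1)) =
      M.χ _ (BI π w c Fr (Finset.univ.filter fun i => 0 < lam i) τ) *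
        (M.L - 1) ^ (Fr.filter fun l => u l ≤ N).card *
        M.L ^ (Fr.filter fun l => ¬ u l ≤ N).card *
        M.L ^ (∑ l, (2 * N + 1 - u l))

/-- the coordinates `y_i`, `i ∈ T`, and all the `x_l` -/
def JJ {k : ℕ} (n : ℕ) (T : Finset (Fin k)) : Finset (Fin (k + n)) :=
  (T.map (Fin.castAddEmb n)) ∪ (Finset.univ.map (Fin.natAddEmb k))

/-- the coordinates `x_l` which do not occur in the monomials of `τ` -/
def freeI {n r : ℕ} (w : Fin r → Fin n → ℕ) (τ : Finset (Fin r)) : Finset (Fin n) :=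
  Finset.univ.filter fun l => ∀ j ∈ τ, w j l = 0

/-- (SUMI) the class of the jets (as `Pool.Agent.W479.NMSum`). -/
def S_SumI : Prop :=
  ∀ {K : Type} [Field K] [CharZero K] {R : Type} [CommRing R] (M : Meas K R) {n k r : ℕ}
    (π : Fin r → Fin k) (w : Fin r → Fin n → ℕ) (c : Fin r → K), AffInd (vv π w) →
    (∀ j, c j ≠ 0) → Function.Surjective π → 0 < k → ∀ Y : R, M.L * Y = 1 → ∀ N : ℕ, 1 ≤ N →
    M.χ _ (JetI (gen π w c) N) * Y ^ (n * N) =
      ∑ T : Finset (Fin k), ∑ τ : Finset (Fin r), if T ⊆ τ.image π then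
        M.L ^ (freeI w τ).card *
          (M.χ _ (BI π w c (freeI w τ) T τ) * M.L ^ T.card -
            M.χ _ (BI π w c (freeI w τ) (τ.image π) τ)) *
          Polynomial.eval₂ (Int.castRingHom R) Y (cp 0 (vv π w) 1 (JJ n T) τ N N) else 0

/-- (RATI) rationality, with only the rays of the closure of the cone
(as `Pool.Agent.W29.MTRat`). -/
def S_RATI : Prop :=
  ∀ {n r : ℕ} (A : Fin n → ℕ) (m : Fin r → Fin n → ℕ) (e : ℕ) (J : Finset (Fin n))
    (τ : Finset (Fin r)), 0 < r → 0 < e →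
    ∃ (l : List (Fin n → ℕ)) (P : Polynomial (Polynomial ℤ)),
      (∀ a ∈ l, IsRay m a ∧ 0 < ford A m e a ∧ (∀ j ∈ τ, face m a j) ∧
        ∃ u0 : Fin n → ℕ, (∀ i, u0 i ≠ 0 ↔ i ∈ J) ∧ amin m u0 = τ ∧ ∀ i, u0 i = 0 → a i = 0) ∧
      (PowerSeries.mk fun M => cp A m e J τ M M) *
          (l.map fun a => 1 - PowerSeries.C (Polynomial.X ^ (∑ i, a i)) *
            PowerSeries.X ^ ford A m e a).prod =
        ((P : Polynomial (Polynomial ℤ)) : PowerSeries (Polynomial ℤ))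

/-- (FINI) the final statement. -/
def S_FINI : Prop :=
  ∀ (k₀ K : Type) [Field k₀] [Algebra k₀ ℂ] [Field K] [Algebra k₀ K] {n k r : ℕ}
    (π : Fin r → Fin k) (w : Fin r → Fin n → ℕ) (c : Fin r → k₀), AffInd (vv π w) →
    (∀ j, c j ≠ 0) → Function.Surjective π → 0 < k → (∀ j i, w j i ≠ 1) →
    ∃ S : Finset (ℤ × ℤ),
      (∀ p ∈ S, p.1 < 0 ∧ 0 < p.2 ∧ (p.1 ≠ -p.2 → ∀ b : Polynomial ℂ,
        IsLocalFE (gen π w (fun j => algebraMap k₀ ℂ (c j))) b →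
          b.eval ((p.1 : ℂ) / p.2) = 0)) ∧
      zetaI (gen π w (fun j => algebraMap k₀ K (c j))) ∈ ratRing K S

end Pool.Agent.W425.IM
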